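import Mathlib

set_option autoImplicit false

namespace Pool.Agent.H.MP_cf13c7_al

open scoped commutatorElement

variable {G H : Type} [Group G] [Group H]

/-- a conjugate of c times a conjugate of its inverse -/
def E (c x : G) : Prop := ∃ u v, x = u * c * u⁻¹ * (v * c⁻¹ * v⁻¹)

/-- a product of four such -/
def F (c x : G) : Prop :=
  ∃ x1 x2 x3 x4, E c x1 ∧ E c x2 ∧ E c x3 ∧ E c x4 ∧ x = x1 * x2 * x3 * x4

/-- the class -/
def K (G : Type) [Group G] : Prop :=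
  ∀ a : G, ∃ h, F ⁅a, h * a * h⁻¹⁆ a ∧ ∀ b, ∃ y1 y2, F ⁅a, b⁆ y1 ∧ F ⁅h * a * h⁻¹, b⁆ y2 ∧
    ∀ g, Commute ((y1 * y2)⁻¹ * b) (g * a * g⁻¹)

theorem E.map {c x : G} (h : E c x) (f : G →* H) : E (f c) (f x) := by
  obtain ⟨u, v, rfl⟩ := h
  exact ⟨f u, f v, by simp⟩

theorem F.map {c x : G} (h : F c x) (f : G →* H) : F (f c) (f x) := by
  obtain ⟨x1, x2, x3, x4, h1, h2, h3, h4, rfl⟩ := h
  exact ⟨_, _, _, _, h1.map f, h2.map f, h3.map f, h4.map f, by simp⟩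

theorem F.mem {c x : G} (h : F c x) (N : Subgroup G) [hN : N.Normal] (hc : c ∈ N) : x ∈ N := by
  have : ∀ y, E c y → y ∈ N := by
    rintro y ⟨u, v, rfl⟩
    exact mul_mem (hN.conj_mem _ hc _) (hN.conj_mem _ (inv_mem hc) _)
  obtain ⟨x1, x2, x3, x4, h1, h2, h3, h4, rfl⟩ := h
  exact mul_mem (mul_mem (mul_mem (this _ h1) (this _ h2)) (this _ h3)) (this _ h4)

theorem F.one {x : G} (h : F 1 x) : x = 1 := by
  simpa using h.mem ⊥ (one_mem _)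

theorem F.refl (c : G) : F c 1 :=
  have : E c 1 := ⟨1, 1, by simp⟩
  ⟨1, 1, 1, 1, this, this, this, this, by simp⟩

theorem F.prod {c x : G} {d y : H} (h : F c x) (h' : F d y) : F (c, d) (x, y) := by
  have : ∀ x y, E c x → E d y → E (c, d) (x, y) := by
    rintro x y ⟨u, v, rfl⟩ ⟨u', v', rfl⟩
    exact ⟨(u, u'), (v, v'), rfl⟩
  obtain ⟨x1, x2, x3, x4, h1, h2, h3, h4, rfl⟩ := h
  obtain ⟨y1, y2, y3, y4, k1, k2, k3, k4, rfl⟩ := h'
  exact ⟨_, _, _, _, this _ _ h1 k1, this _ _ h2 k2, this _ _ h3 k3, this _ _ h4 k4, rfl⟩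

theorem K.surj (hG : K G) (f : G →* H) (hf : Function.Surjective f) : K H := by
  intro a
  obtain ⟨a, rfl⟩ := hf a
  obtain ⟨h, h1, h2⟩ := hG a
  refine ⟨f h, by simpa [map_commutatorElement] using h1.map f, fun b => ?_⟩
  obtain ⟨b, rfl⟩ := hf b
  obtain ⟨y1, y2, k1, k2, k3⟩ := h2 b
  refine ⟨f y1, f y2, by simpa [map_commutatorElement] using k1.map f,
    by simpa [map_commutatorElement] using k2.map f, fun g => ?_⟩
  obtain ⟨g, rfl⟩ := hf g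
  simpa using (k3 g).map f

theorem K.prod (hG : K G) (hH : K H) : K (G × H) := by
  rintro ⟨a, a'⟩
  obtain ⟨h, h1, h2⟩ := hG a
  obtain ⟨h', h1', h2'⟩ := hH a'
  refine ⟨(h, h'), h1.prod h1', ?_⟩
  rintro ⟨b, b'⟩
  obtain ⟨y1, y2, k1, k2, k3⟩ := h2 b
  obtain ⟨y1', y2', k1', k2', k3'⟩ := h2' b'
  refine ⟨(y1, y1'), (y2, y2'), k1.prod k1', k2.prod k2', ?_⟩
  rintro ⟨g, g'⟩
  exact Prod.ext (k3 g).eq (k3' g').eq

theorem comm_mem {N : Subgroup G} [hN : N.Normal] {a : G} (ha : a ∈ N) (b : G) : ⁅a, b⁆ ∈ N := by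
  rw [commutatorElement_def, mul_assoc, mul_assoc, ← mul_assoc b]
  exact mul_mem ha (hN.conj_mem _ (inv_mem ha) _)

theorem comm_mem' {N : Subgroup G} [hN : N.Normal] (a : G) {b : G} (hb : b ∈ N) :
    ⁅a, b⁆ ∈ N := by
  rw [commutatorElement_def]
  exact mul_mem (hN.conj_mem _ hb _) (inv_mem hb)

theorem K.split (hG : K G) (N : Subgroup G) [hN : N.Normal] {a : G} (ha : a ∈ N) (b : G) :
    ∃ y ∈ N, ∀ g, Commute (y⁻¹ * b) (g * a * g⁻¹) := by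
  obtain ⟨h, -, h2⟩ := hG a
  obtain ⟨y1, y2, k1, k2, k3⟩ := h2 b
  exact ⟨y1 * y2, mul_mem (k1.mem N (comm_mem ha b))
    (k2.mem N (comm_mem (hN.conj_mem _ ha _) b)), k3⟩

theorem conj_eq {a y b : G} (h : Commute (y⁻¹ * b) a) : b * a * b⁻¹ = y * a * y⁻¹ := by
  calc b * a * b⁻¹ = y * (y⁻¹ * b * a) * b⁻¹ := by group
    _ = y * (a * (y⁻¹ * b)) * b⁻¹ := by rw [h.eq]
    _ = _ := by group

theorem K.conj (hG : K G) (N : Subgroup G) [hN : N.Normal] {a : G} (ha : a ∈ N) (b : G) :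
    ∃ y ∈ N, b * a * b⁻¹ = y * a * y⁻¹ := by
  obtain ⟨y, hy, h⟩ := hG.split N ha b
  exact ⟨y, hy, conj_eq (by simpa using h 1)⟩

theorem K.F_sub (hG : K G) (N : Subgroup G) [hN : N.Normal] {c : N} {x : G} (h : F (c : G) x) :
    ∃ x' : N, (x' : G) = x ∧ F c x' := by
  have : ∀ y, E (c : G) y → ∃ y' : N, (y' : G) = y ∧ E c y' := by
    rintro y ⟨u, v, rfl⟩
    obtain ⟨u', hu, eu⟩ := hG.conj N c.2 u
    obtain ⟨v', hv, ev⟩ := hG.conj N (inv_mem c.2) v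
    exact ⟨_, by simp [eu, ev], ⟨⟨u', hu⟩, ⟨v', hv⟩, rfl⟩⟩
  obtain ⟨x1, x2, x3, x4, h1, h2, h3, h4, rfl⟩ := h
  obtain ⟨y1, rfl, k1⟩ := this _ h1
  obtain ⟨y2, rfl, k2⟩ := this _ h2
  obtain ⟨y3, rfl, k3⟩ := this _ h3
  obtain ⟨y4, rfl, k4⟩ := this _ h4
  exact ⟨y1 * y2 * y3 * y4, rfl, _, _, _, _, k1, k2, k3, k4, rfl⟩

theorem K.normal (hG : K G) (N : Subgroup G) [hN : N.Normal] : K N := by
  intro a
  obtain ⟨h, h1, h2⟩ := hG a
  obtain ⟨h', hh, e⟩ := hG.conj N a.2 h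
  rw [e] at h1 h2
  refine ⟨⟨h', hh⟩, ?_, fun b => ?_⟩
  · obtain ⟨x', e', k⟩ := hG.F_sub N (c := ⁅a, ⟨h', hh⟩ * a * ⟨h', hh⟩⁻¹⁆) h1
    rwa [Subtype.ext e'] at k
  · obtain ⟨y1, y2, k1, k2, k3⟩ := h2 b
    obtain ⟨y1, rfl, l1⟩ := hG.F_sub N (c := ⁅a, b⁆) k1
    obtain ⟨y2, rfl, l2⟩ := hG.F_sub N (c := ⁅⟨h', hh⟩ * a * ⟨h', hh⟩⁻¹, b⁆) k2
    exact ⟨y1, y2, l1, l2, fun g => Subtype.ext (k3 g).eq⟩

/-- normal closure inside a subgroup -/
def ncl (N : Subgroup G) (d : G) : Subgroup G :=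
  Subgroup.closure {x | ∃ n ∈ N, x = n * d * n⁻¹}

theorem ncl_map (N : Subgroup G) (d : N) :
    (Subgroup.normalClosure {d}).map N.subtype = ncl N d := by
  rw [Subgroup.normalClosure, MonoidHom.map_closure, ncl]
  congr 1
  ext x
  simp only [Set.mem_image, Group.mem_conjugatesOfSet_iff, Set.mem_singleton_iff,
    exists_eq_left, isConj_iff, Set.mem_ofPred_eq]
  constructor
  · rintro ⟨_, ⟨n, rfl⟩, rfl⟩
    exact ⟨n, n.2, rfl⟩
  · rintro ⟨n, hn, rfl⟩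
    exact ⟨_, ⟨⟨n, hn⟩, rfl⟩, rfl⟩

theorem ncl_le {N : Subgroup G} {d : G} (M : Subgroup G) [hM : M.Normal] (hd : d ∈ M) :
    ncl N d ≤ M := by
  rw [ncl, Subgroup.closure_le]
  rintro _ ⟨n, -, rfl⟩
  exact hM.conj_mem _ hd _

theorem mem_ncl (N : Subgroup G) (d : G) : d ∈ ncl N d :=
  Subgroup.subset_closure ⟨1, one_mem _, by simp⟩

theorem ncl_conj {N : Subgroup G} {d n x : G} (hn : n ∈ N) (hx : x ∈ ncl N d) :
    n * x * n⁻¹ ∈ ncl N d := by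
  induction hx using Subgroup.closure_induction with
  | mem y hy =>
    obtain ⟨m, hm, rfl⟩ := hy
    exact Subgroup.subset_closure ⟨n * m, mul_mem hn hm, by group⟩
  | one => simp
  | mul y z _ _ h1 h2 => simpa [mul_assoc] using mul_mem h1 h2
  | inv y _ h1 => simpa [mul_assoc] using inv_mem h1

theorem comm_ncl {N : Subgroup G} {d z : G} (h : ∀ n ∈ N, Commute z (n * d * n⁻¹)) {x : G}
    (hx : x ∈ ncl N d) : Commute z x := by
  induction hx using Subgroup.closure_induction with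
  | mem y hy =>
    obtain ⟨m, hm, rfl⟩ := hy
    exact h m hm
  | one => simp
  | mul y z _ _ h1 h2 => exact h1.mul_right h2
  | inv y _ h1 => exact h1.inv_right

theorem sub_split {N : Subgroup G} (hN : K N) {d b : G} (hd : d ∈ N) (hb : b ∈ N) :
    ∃ y ∈ ncl N d, ∀ x ∈ ncl N d, Commute (y⁻¹ * b) x := by
  obtain ⟨y, hy, h⟩ := hN.split (Subgroup.normalClosure {(⟨d, hd⟩ : N)})
    (Subgroup.subset_normalClosure rfl) ⟨b, hb⟩
  refine ⟨y, ?_, fun x hx => comm_ncl (fun n hn => ?_) hx⟩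
  · rw [← ncl_map N ⟨d, hd⟩]
    exact ⟨y, hy, rfl⟩
  · exact congrArg Subtype.val (h ⟨n, hn⟩).eq

theorem ncl_eq {N M : Subgroup G} [N.Normal] [M.Normal] (hN : K N) {d : G} (hd : d ∈ N)
    (hd' : d ∈ M) : ncl N d ≤ ncl M d := by
  refine Subgroup.closure_mono ?_
  rintro _ ⟨n, hn, rfl⟩
  obtain ⟨y, hy, h⟩ := sub_split hN hd hn
  exact ⟨y, ncl_le M hd' hy, conj_eq (h d (mem_ncl N d))⟩

theorem no_center {N : Subgroup G} [N.Normal] (hN : K N) {d x : G} (hd : d ∈ N)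
    (hx : x ∈ ncl N d) (h : ∀ y ∈ ncl N d, Commute x y) : x = 1 := by
  have hxN := ncl_le N hd hx
  obtain ⟨k, h1, -⟩ := hN ⟨x, hxN⟩
  have : ⁅(⟨x, hxN⟩ : N), k * ⟨x, hxN⟩ * k⁻¹⁆ = 1 :=
    commutatorElement_eq_one_iff_commute.2 (Subtype.ext (h _ (ncl_conj k.2 hx)).eq)
  rw [this] at h1
  exact congrArg Subtype.val h1.one

theorem lemS {N M : Subgroup G} [N.Normal] [M.Normal] (hN : K N) (hM : K M) {d m : G}
    (hd : d ∈ N) (hd' : d ∈ M) (hm : m ∈ M) :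
    ∃ e, e ∈ N ∧ e ∈ M ∧ ∀ n ∈ N, (⁅n, m⁆ = d ∨ ⁅n, m⁆ = 1) →
      ⁅n, m⁆ = ⁅n, e⁆ ∧ Commute n (e⁻¹ * m) := by
  have hE : ncl M d = ncl N d := le_antisymm (ncl_eq hM hd' hd) (ncl_eq hN hd hd')
  obtain ⟨e, he, h⟩ := sub_split hM hd' hm
  rw [hE] at he h
  refine ⟨e, ncl_le N hd he, ncl_le M hd' he, fun n hn hc => ?_⟩
  obtain ⟨z, rfl⟩ : ∃ z, m = e * z := ⟨e⁻¹ * m, by group⟩
  rw [inv_mul_cancel_left] at h ⊢
  have h1 : ⁅n, e * z⁆ ∈ ncl N d := by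
    rcases hc with hc | hc <;> rw [hc]
    · exact mem_ncl N d
    · exact one_mem _
  have h2 : ⁅n, e⁆ ∈ ncl N d := by
    rw [commutatorElement_def]
    exact mul_mem (ncl_conj hn he) (inv_mem he)
  have h3 : ∀ y ∈ ncl N d, Commute ⁅n, z⁆ y := by
    intro y hy
    have a1 : Commute z (n⁻¹ * y * n⁻¹⁻¹) := h _ (ncl_conj (inv_mem hn) hy)
    have a2 : Commute (n * z * n⁻¹) y := by
      have := a1.map (MulAut.conj n).toMonoidHom
      simpa [mul_assoc] using this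
    rw [commutatorElement_def]
    exact a2.mul_left (h y hy).inv_left
  have h4 : ⁅n, e * z⁆ = ⁅n, e⁆ * ⁅n, z⁆ := by
    calc ⁅n, e * z⁆ = ⁅n, e⁆ * (e * ⁅n, z⁆) * e⁻¹ := by
          simp only [commutatorElement_def]
          group
      _ = _ := by rw [← (h3 e he).eq]; group
  have h5 : ⁅n, z⁆ = 1 := by
    refine no_center hN hd ?_ h3
    have := mul_mem (inv_mem h2) h1
    rwa [h4, inv_mul_cancel_left] at this
  exact ⟨by rw [h4, h5, mul_one], commutatorElement_eq_one_iff_commute.1 h5⟩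

theorem lemI {N M : Subgroup G} [hn : N.Normal] [M.Normal] (hN : K N) (hM : K M) {a b : G}
    (ha : a ∈ N) (hb : b ∈ M) : ∃ y ∈ ncl N a, ∀ x ∈ ncl N a, Commute (y⁻¹ * b) x := by
  obtain ⟨h, -, h2⟩ := hN ⟨a, ha⟩
  have ha' : (h : G) * a * (h : G)⁻¹ ∈ N := hn.conj_mem _ ha _
  have c1 := @commutatorElement_eq_one_iff_commute G _
  have key : ∀ e ∈ N, ⁅a, e⁆ = 1 → ⁅(h : G) * a * (h : G)⁻¹, e⁆ = 1 →
      ∀ x ∈ ncl N a, Commute e x := by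
    intro e he e1 e2 x hx
    obtain ⟨y1, y2, k1, k2, k3⟩ := h2 ⟨e, he⟩
    rw [show ⁅(⟨a, ha⟩ : N), (⟨e, he⟩ : N)⁆ = 1 from Subtype.ext e1] at k1
    rw [show ⁅h * (⟨a, ha⟩ : N) * h⁻¹, (⟨e, he⟩ : N)⁆ = 1 from Subtype.ext e2] at k2
    rw [k1.one, k2.one] at k3
    refine comm_ncl (fun n hn => ?_) hx
    exact show e * _ = _ * e by simpa using congrArg Subtype.val (k3 ⟨n, hn⟩).eq
  obtain ⟨e1, p1, q1, r1⟩ := lemS hN hM (comm_mem ha b) (comm_mem' a hb) hb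
  have hz1 := mul_mem (inv_mem q1) hb
  have s1 := (r1 a ha (Or.inl rfl)).2
  obtain ⟨e2, p2, q2, r2⟩ := lemS hN hM (comm_mem ha' (e1⁻¹ * b)) (comm_mem' _ hz1) hz1
  have hz2 := mul_mem (inv_mem q2) hz1
  have s2 := (r2 a ha (Or.inr (c1.2 s1))).2
  have s3 := (r2 _ ha' (Or.inl rfl)).2
  have hZ : ∀ x ∈ ncl N a, Commute (e2⁻¹ * (e1⁻¹ * b)) x := by
    intro x hx
    have hxN := ncl_le N ha hx
    obtain ⟨e, p, -, r⟩ := lemS hN hM (comm_mem hxN (e2⁻¹ * (e1⁻¹ * b))) (comm_mem' _ hz2) hz2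
    have t1 := (r a ha (Or.inr (c1.2 s2))).1
    have t2 := (r _ ha' (Or.inr (c1.2 s3))).1
    have t3 := (r x hxN (Or.inl rfl)).1
    rw [c1.2 s2] at t1
    rw [c1.2 s3] at t2
    rw [c1.2 (key e p t1.symm t2.symm x hx).symm] at t3
    exact (c1.1 t3).symm
  obtain ⟨y, hy, k⟩ := sub_split hN ha (mul_mem p1 p2)
  refine ⟨y, hy, fun x hx => ?_⟩
  have := (k x hx).mul_left (hZ x hx)
  simpa [mul_assoc] using this

theorem lemJ (hG : sSup {N : Subgroup G | N.Normal ∧ K N} = ⊤) {N : Subgroup G} [N.Normal]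
    (hN : K N) {a : G} (ha : a ∈ N) (b : G) :
    ∃ y ∈ ncl N a, ∀ x ∈ ncl N a, Commute (y⁻¹ * b) x := by
  have hb : b ∈ sSup {N : Subgroup G | N.Normal ∧ K N} := hG ▸ Subgroup.mem_top b
  rw [sSup_eq_iSup'] at hb
  have cl : ∀ y ∈ ncl N a, ∀ x ∈ ncl N a, y * x * y⁻¹ ∈ ncl N a :=
    fun y hy x hx => mul_mem (mul_mem hy hx) (inv_mem hy)
  induction hb using Subgroup.iSup_induction' with
  | hp M b hb =>
    have := M.2.1
    exact lemI hN M.2.2 ha hb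
  | h1 => exact ⟨1, one_mem _, by simp⟩
  | hmul b c _ _ h1 h2 =>
    obtain ⟨y, hy, k⟩ := h1
    obtain ⟨y', hy', k'⟩ := h2
    refine ⟨y * y', mul_mem hy hy', fun x hx => ?_⟩
    have := (k x hx).mul_left (k' x hx)
    have e : (y * y')⁻¹ * (b * c) = y⁻¹ * b * (y'⁻¹ * c) := by
      calc (y * y')⁻¹ * (b * c) = y'⁻¹ * (y⁻¹ * b) * c := by group
        _ = _ := by rw [← (k _ (inv_mem hy')).eq]; group
    rwa [e]

theorem lemN (hG : sSup {N : Subgroup G | N.Normal ∧ K N} = ⊤) {N : Subgroup G} [N.Normal]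
    (hN : K N) {a : G} (ha : a ∈ N) : (ncl N a).Normal ∧ K (ncl N a) := by
  have h1 : (ncl N a).Normal := ⟨fun x hx g => by
    obtain ⟨y, hy, k⟩ := lemJ hG hN ha g
    rw [conj_eq (k x hx)]
    exact mul_mem (mul_mem hy hx) (inv_mem hy)⟩
  refine ⟨h1, ?_⟩
  exact (hN.normal ((ncl N a).subgroupOf N)).surj
    (Subgroup.subgroupOfEquivOfLe (ncl_le N ha)).toMonoidHom (MulEquiv.surjective _)

theorem lemP {A M : Subgroup G} [hA : A.Normal] [hM : M.Normal] (kA : K A) (kM : K M)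
    (hs : ∀ b, ∃ y ∈ A, ∀ x ∈ A, Commute (y⁻¹ * b) x) : K (A ⊔ M : Subgroup G) := by
  let B : Subgroup G := M ⊓ Subgroup.centralizer A
  have kB : K B := (kM.normal (B.subgroupOf M)).surj
    (Subgroup.subgroupOfEquivOfLe inf_le_left).toMonoidHom (MulEquiv.surjective _)
  have cm : ∀ (a : A) (b : B), Commute (Subgroup.inclusion (le_sup_left : A ≤ A ⊔ M) a)
      (Subgroup.inclusion (inf_le_left.trans le_sup_right : B ≤ A ⊔ M) b) :=
    fun a b => Subtype.ext (b.2.2 a a.2)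
  refine (kA.prod kB).surj (MonoidHom.noncommCoprod _ _ cm) ?_
  rintro ⟨g, hg⟩
  obtain ⟨a, ha, m, hm, rfl⟩ := Subgroup.mem_sup_of_normal_left.1 hg
  obtain ⟨y, hy, k⟩ := hs m
  have hyM : y ∈ M := by
    obtain ⟨h, h1, -⟩ := kA ⟨y, hy⟩
    refine (h1.map A.subtype).mem M ?_
    have hx : (h : G) * y * (h : G)⁻¹ ∈ A := hA.conj_mem _ hy _
    have : ⁅y, (h : G) * y * (h : G)⁻¹⁆ = ⁅m, (h : G) * y * (h : G)⁻¹⁆ := by
      rw [commutatorElement_def, commutatorElement_def m, conj_eq (k _ hx)]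
    change ⁅y, (h : G) * y * (h : G)⁻¹⁆ ∈ M
    rw [this]
    exact comm_mem hm _
  refine ⟨(⟨a * y, mul_mem ha hy⟩, ⟨y⁻¹ * m, M.mul_mem (M.inv_mem hyM) hm,
    fun x hx => (k x hx).eq.symm⟩), Subtype.ext ?_⟩
  change a * y * (y⁻¹ * m) = a * m
  group

theorem K.bot : K (⊥ : Subgroup G) := fun a =>
  ⟨1, by rw [Subsingleton.elim a 1]; exact F.refl _,
    fun _ => ⟨1, 1, F.refl _, F.refl _, fun _ => Subsingleton.elim _ _⟩⟩

theorem K.gen (hG : sSup {N : Subgroup G | N.Normal ∧ K N} = ⊤) : K G := by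
  intro a
  have hb : a ∈ sSup {N : Subgroup G | N.Normal ∧ K N} := hG ▸ Subgroup.mem_top a
  have h0 : ∃ N : Subgroup G, N.Normal ∧ K N ∧ a ∈ N := by
    rw [sSup_eq_iSup'] at hb
    induction hb using Subgroup.iSup_induction' with
    | hp M b hb => exact ⟨M, M.2.1, M.2.2, hb⟩
    | h1 => exact ⟨⊥, inferInstance, K.bot, one_mem _⟩
    | hmul b c _ _ h1 h2 =>
      obtain ⟨N, _, kN, hb⟩ := h1
      obtain ⟨M, _, kM, hc⟩ := h2
      obtain ⟨_, kA⟩ := lemN hG kN hb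
      exact ⟨ncl N b ⊔ M, inferInstance, lemP kA kM (lemJ hG kN hb),
        mul_mem (Subgroup.mem_sup_left (mem_ncl N b)) (Subgroup.mem_sup_right hc)⟩
  obtain ⟨N, _, kN, ha⟩ := h0
  obtain ⟨hA, kA⟩ := lemN hG kN ha
  have hs := lemJ hG kN ha
  have haA := mem_ncl N a
  generalize ncl N a = A at *
  obtain ⟨h, h1, h2⟩ := kA ⟨a, haA⟩
  refine ⟨h, h1.map A.subtype, fun b => ?_⟩
  obtain ⟨y, hy, k⟩ := hs b
  obtain ⟨y1, y2, k1, k2, k3⟩ := h2 ⟨y, hy⟩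
  have cm : ∀ x ∈ A, ⁅x, b⁆ = ⁅x, y⁆ := by
    intro x hx
    have := conj_eq (k _ (inv_mem hx))
    simp only [commutatorElement_def, mul_assoc] at this ⊢
    rw [this]
  refine ⟨y1, y2, ?_, ?_, fun g => ?_⟩
  · rw [cm a haA]
    exact k1.map A.subtype
  · rw [cm _ (hA.conj_mem _ haA _)]
    exact k2.map A.subtype
  · obtain ⟨g', hg', k'⟩ := hs g
    have a1 : Commute (((y1 : G) * y2)⁻¹ * y) (g' * a * g'⁻¹) :=
      congrArg Subtype.val (k3 ⟨g', hg'⟩).eq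
    rw [conj_eq (k' a haA)]
    have := a1.mul_left (k _ (hA.conj_mem _ haA g'))
    simpa [mul_assoc] using this

end Pool.Agent.H.MP_cf13c7_al
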