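import Mathlib
import Pool.Agent.H.MP_cf13c7_al.Main

set_option autoImplicit false

namespace Pool.Agent.H.MP_cf13c7_al

open scoped commutatorElement

/-- two by two matrices of determinant one -/
@[ext] structure S (k : Type) [Field k] where
  /-- entry -/
  a : k
  /-- entry -/
  b : k
  /-- entry -/
  c : k
  /-- entry -/
  d : k
  h : a * d - b * c = 1

variable {k : Type} [Field k]

instance : Mul (S k) := ⟨fun x y => ⟨x.a * y.a + x.b * y.c, x.a * y.b + x.b * y.d,
  x.c * y.a + x.d * y.c, x.c * y.b + x.d * y.d, by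
    linear_combination (y.a * y.d - y.b * y.c) * x.h + y.h⟩⟩
instance : One (S k) := ⟨⟨1, 0, 0, 1, by ring⟩⟩
instance : Inv (S k) := ⟨fun x => ⟨x.d, -x.b, -x.c, x.a, by linear_combination x.h⟩⟩

@[simp] theorem mul_a (x y : S k) : (x * y).a = x.a * y.a + x.b * y.c := rfl
@[simp] theorem mul_b (x y : S k) : (x * y).b = x.a * y.b + x.b * y.d := rfl
@[simp] theorem mul_c (x y : S k) : (x * y).c = x.c * y.a + x.d * y.c := rfl
@[simp] theorem mul_d (x y : S k) : (x * y).d = x.c * y.b + x.d * y.d := rfl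
@[simp] theorem one_a : (1 : S k).a = 1 := rfl
@[simp] theorem one_b : (1 : S k).b = 0 := rfl
@[simp] theorem one_c : (1 : S k).c = 0 := rfl
@[simp] theorem one_d : (1 : S k).d = 1 := rfl
@[simp] theorem inv_a (x : S k) : x⁻¹.a = x.d := rfl
@[simp] theorem inv_b (x : S k) : x⁻¹.b = -x.b := rfl
@[simp] theorem inv_c (x : S k) : x⁻¹.c = -x.c := rfl
@[simp] theorem inv_d (x : S k) : x⁻¹.d = x.a := rfl

instance : Group (S k) := Group.ofLeftAxioms
  (fun x y z => by ext <;> simp <;> ring)
  (fun x => by ext <;> simp)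
  (fun x => by
    ext <;> simp
    · linear_combination x.h
    · ring
    · ring
    · linear_combination x.h)

/-- upper transvection -/
def T (x : k) : S k := ⟨1, x, 0, 1, by ring⟩
/-- lower transvection -/
def L (x : k) : S k := ⟨1, 0, x, 1, by ring⟩
/-- diagonal matrix -/
def D (s : k) (hs : s ≠ 0) : S k := ⟨s, 0, 0, s⁻¹, by simp [hs]⟩
/-- Weyl element -/
def w : S k := ⟨0, -1, 1, 0, by ring⟩

theorem E.conj {G : Type} [Group G] {c x : G} (h : E c x) (g : G) : E c (g * x * g⁻¹) := by
  obtain ⟨u, v, rfl⟩ := h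
  exact ⟨g * u, g * v, by group⟩

theorem E.conj' {G : Type} [Group G] {c x : G} (g : G) (h : E (g * c * g⁻¹) x) : E c x := by
  obtain ⟨u, v, rfl⟩ := h
  exact ⟨u * g, v * g, by group⟩

variable [IsAlgClosed k] [CharP k 2]

omit [CharP k 2] in
theorem tri (c : S k) : ∃ g : S k, (g * c * g⁻¹).c = 0 := by
  by_cases hb : c.b = 0
  · exact ⟨w, by simp [w, hb]⟩
  · obtain ⟨x, hx⟩ := IsAlgClosed.exists_root
      (Polynomial.C (-c.b) * Polynomial.X ^ 2 + Polynomial.C (c.a - c.d) * Polynomial.X +
        Polynomial.C c.c) (by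
          rw [Polynomial.degree_quadratic (neg_ne_zero.2 hb)]
          decide)
    refine ⟨L x, ?_⟩
    simp only [Polynomial.IsRoot.def, Polynomial.eval_add, Polynomial.eval_mul, Polynomial.eval_C,
      Polynomial.eval_pow, Polynomial.eval_X] at hx
    simp only [L, mul_c, mul_d, inv_a, inv_c]
    linear_combination hx

omit [IsAlgClosed k] in
theorem sq_one {s : k} (h : s * s = 1) : s = 1 := by
  have h2 : (2 : k) = 0 := CharTwo.two_eq_zero
  have : (s - 1) ^ 2 = 0 := by linear_combination h + (1 - s) * h2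
  exact sub_eq_zero.1 (pow_eq_zero_iff two_ne_zero |>.1 this)

theorem stepA {c : S k} (hc : c ≠ 1) : ∃ x, x ≠ 0 ∧ E c (T x) := by
  obtain ⟨g, hg⟩ := tri c
  have hc' : g * c * g⁻¹ ≠ 1 := by simpa using hc
  suffices ∃ x, x ≠ 0 ∧ E (g * c * g⁻¹) (T x) from this.imp fun x h => ⟨h.1, h.2.conj' g⟩
  generalize g * c * g⁻¹ = c at *
  have hd := c.h
  rw [hg, mul_zero, sub_zero] at hd
  by_cases ha : c.a = 1
  · have hd1 : c.d = 1 := by simpa [ha] using hd
    have hb : c.b ≠ 0 := fun hb => hc' (by ext <;> simp [*])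
    classical
    obtain ⟨s, hs⟩ := Infinite.exists_notMem_finset ({0, 1} : Finset k)
    simp only [Finset.mem_insert, Finset.mem_singleton, not_or] at hs
    refine ⟨(s * s - 1) * c.b, mul_ne_zero (fun h => hs.2 (sq_one (sub_eq_zero.1 h))) hb,
      D s hs.1, 1, ?_⟩
    have := hs.1
    ext <;> simp [T, D, ha, hd1, hg, this]
    ring
  · refine ⟨c.a * c.a - 1, fun h => ha (sq_one (sub_eq_zero.1 h)), 1, T 1, ?_⟩
    ext <;> simp [T, hg]
    · linear_combination -hd
    · linear_combination hd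
    · linear_combination -hd

theorem stepB {c : S k} (hc : c ≠ 1) (x : k) : E c (T x) ∧ E c (L x) := by
  obtain ⟨y, hy, h⟩ := stepA hc
  have : ∀ x, E c (T x) := by
    intro x
    by_cases hx : x = 0
    · exact ⟨1, 1, by ext <;> simp [T, hx]⟩
    · obtain ⟨s, hs⟩ := IsAlgClosed.exists_eq_mul_self (x / y)
      have hs0 : s ≠ 0 := by
        rintro rfl
        simp [hx, hy] at hs
      have e : T x = D s hs0 * T y * (D s hs0)⁻¹ := by
        ext <;> simp [T, D, hs0]
        field_simp at hs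
        linear_combination hs
      exact e ▸ h.conj _
  refine ⟨this x, ?_⟩
  have e : L x = w * T (-x) * w⁻¹ := by ext <;> simp [T, L, w]
  exact e ▸ (this _).conj _

theorem stepC {c : S k} (hc : c ≠ 1) (b : S k) : F c b := by
  have : ∀ b : S k, b.c ≠ 0 → b = T ((b.a - 1) / b.c) * L b.c * T ((b.d - 1) / b.c) := by
    intro b hb
    ext <;> simp [T, L] <;> field_simp
    · ring
    · linear_combination -b.h
    · ring
  by_cases hb : b.c = 0
  · have hd : (b * L 1).c ≠ 0 := by
      have := b.h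
      simp only [mul_c, L, hb, mul_one, zero_add]
      rintro h
      simp [h, hb] at this
    exact ⟨_, _, _, L (-1), (stepB hc _).1, (stepB hc _).2, (stepB hc _).1, (stepB hc _).2,
      by rw [← this _ hd]; ext <;> simp [L]⟩
  · exact ⟨_, _, _, 1, (stepB hc _).1, (stepB hc _).2, (stepB hc _).1, ⟨1, 1, by simp⟩,
      by rw [← this _ hb, mul_one]⟩

omit [IsAlgClosed k] in
theorem stepD {x y b : S k} (hb : b ≠ 1) (hx : Commute x b) (hy : Commute y b) :
    Commute x y := by
  have x1 := congrArg S.a hx.eq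
  have x2 := congrArg S.b hx.eq
  have x3 := congrArg S.c hx.eq
  have y1 := congrArg S.a hy.eq
  have y2 := congrArg S.b hy.eq
  have y3 := congrArg S.c hy.eq
  simp only [mul_a, mul_b, mul_c] at x1 x2 x3 y1 y2 y3
  have key : ∀ t : k, t * b.b = 0 → t * b.c = 0 → t * (b.a - b.d) = 0 → t = 0 := by
    intro t h1 h2 h3
    by_contra ht
    have e1 := (mul_eq_zero.1 h1).resolve_left ht
    have e2 := (mul_eq_zero.1 h2).resolve_left ht
    have e3 := sub_eq_zero.1 ((mul_eq_zero.1 h3).resolve_left ht)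
    have e4 : b.d = 1 := sq_one (by simpa [e1, e3] using b.h)
    exact hb (by ext <;> simp [*])
  have X12 : x.b * b.c - x.c * b.b = 0 := by linear_combination x1
  have X13 : (x.a - x.d) * b.b - x.b * (b.a - b.d) = 0 := by linear_combination x2
  have X23 : x.c * (b.a - b.d) - (x.a - x.d) * b.c = 0 := by linear_combination x3
  have Y12 : y.b * b.c - y.c * b.b = 0 := by linear_combination y1
  have Y13 : (y.a - y.d) * b.b - y.b * (b.a - b.d) = 0 := by linear_combination y2
  have Y23 : y.c * (b.a - b.d) - (y.a - y.d) * b.c = 0 := by linear_combination y3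
  have p1 : x.b * y.c - y.b * x.c = 0 := key _
    (by linear_combination y.b * X12 - x.b * Y12)
    (by linear_combination y.c * X12 - x.c * Y12)
    (by linear_combination -(x.a - x.d) * Y12 - y.c * X13 - y.b * X23)
  have p2 : (x.a - x.d) * y.b - x.b * (y.a - y.d) = 0 := key _
    (by linear_combination y.b * X13 - x.b * Y13)
    (by linear_combination -x.c * Y13 - y.b * X23 - (y.a - y.d) * X12)
    (by linear_combination (y.a - y.d) * X13 - (x.a - x.d) * Y13)
  have p3 : x.c * (y.a - y.d) - (x.a - x.d) * y.c = 0 := key _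
    (by linear_combination -x.b * Y23 - (y.a - y.d) * X12 - y.c * X13)
    (by linear_combination y.c * X23 - x.c * Y23)
    (by linear_combination (y.a - y.d) * X23 - (x.a - x.d) * Y23)
  change x * y = y * x
  ext <;> simp only [mul_a, mul_b, mul_c, mul_d]
  · linear_combination p1
  · linear_combination p2
  · linear_combination p3
  · linear_combination -p1

theorem K_S : K (S k) := by
  intro a
  have c1 := @commutatorElement_eq_one_iff_commute (S k) _
  by_cases ha : a = 1
  · subst ha
    exact ⟨1, F.refl _, fun b => ⟨1, 1, F.refl _, F.refl _, fun g => by simp⟩⟩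
  have : ∃ h : S k, ⁅a, h * a * h⁻¹⁆ ≠ 1 := by
    by_contra hh
    push Not at hh
    have h1 : ∀ x : S k, Commute a x := by
      intro x
      refine comm_ncl (N := ⊤) (d := a) (fun n _ => c1.1 (hh n)) ?_
      have : (ncl ⊤ a).Normal := ⟨fun x hx g => ncl_conj (Subgroup.mem_top g) hx⟩
      exact (stepC ha x).mem _ (mem_ncl _ _)
    have := congrArg S.a (stepD ha (h1 (T 1)).symm (h1 (L 1)).symm).eq
    simp [T, L] at this
  obtain ⟨h, hh⟩ := this
  refine ⟨h, stepC hh a, fun b => ?_⟩
  by_cases hb : b = 1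
  · exact ⟨1, 1, F.refl _, F.refl _, fun g => by simp [hb]⟩
  by_cases h1 : ⁅a, b⁆ = 1
  · have h2 : ⁅h * a * h⁻¹, b⁆ ≠ 1 := fun h2 => hh (c1.2 (stepD hb (c1.1 h1) (c1.1 h2)))
    exact ⟨1, b, F.refl _, stepC h2 b, fun g => by simp⟩
  · exact ⟨b, 1, stepC h1 b, F.refl _, fun g => by simp⟩

theorem exists_inf : ∃ (G : Type) (_ : Group G), K G ∧
    ∃ s : Finset G, Infinite (Subgroup.closure (s : Set G)) := by
  let k := AlgebraicClosure (RatFunc (ZMod 2))
  let f : Polynomial (ZMod 2) →+* k :=
    (algebraMap (RatFunc (ZMod 2)) k).comp (algebraMap _ (RatFunc (ZMod 2)))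
  have hf : Function.Injective f :=
    (algebraMap (RatFunc (ZMod 2)) k).injective.comp (IsFractionRing.injective _ _)
  have h0 : f Polynomial.X ≠ 0 := by
    rw [← map_zero f]
    exact fun h => Polynomial.X_ne_zero (hf h)
  have hp : ∀ n : ℕ, (D _ h0 ^ n).a = f Polynomial.X ^ n ∧ (D _ h0 ^ n).b = 0 := by
    intro n
    induction n with
    | zero => simp
    | succ n ih =>
      rw [pow_succ, mul_a, mul_b, ih.1, ih.2]
      simp [pow_succ, D]
  refine ⟨S k, inferInstance, K_S, {D _ h0}, ?_⟩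
  rw [Finset.coe_singleton, ← Subgroup.zpowers_eq_closure]
  refine Set.infinite_coe_iff.2 (infinite_zpowers.2 ?_)
  rw [isOfFinOrder_iff_pow_eq_one]
  rintro ⟨n, hn, h⟩
  have h1 := (hp n).1
  rw [h, one_a, ← map_pow, ← map_one f] at h1
  have := congrArg Polynomial.natDegree (hf h1)
  simp at this
  omega

theorem exists_not : ¬ K (Multiplicative (ZMod 2)) := by
  intro h
  obtain ⟨g, h1, -⟩ := h (Multiplicative.ofAdd 1)
  rw [commutatorElement_eq_one_iff_commute.2 (Commute.all _ _)] at h1
  exact absurd h1.one (by decide)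

end Pool.Agent.H.MP_cf13c7_al
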